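import Mathlib
import Pool.Agent.Lib.P06184b.Final

set_option autoImplicit false

namespace Pool.Agent.Results.MP_06184b_an.BoundedExponent

open P06184b

/-- For both scalar fields the minimal critical exponent `M(n)` of the `n`-dimensional normed
spaces is at most `4`, for every `n`, and it is at least `2` for `n ≥ 2`. In particular `M(n)` is
a bounded function of `n`. -/
theorem result : (∀ n : ℕ, minCrit ℝ n ≤ 4 ∧ minCrit ℂ n ≤ 4) ∧
    (∀ n : ℕ, 2 ≤ n → 2 ≤ minCrit ℝ n ∧ 2 ≤ minCrit ℂ n) :=
  ⟨fun n => ⟨minCrit_le_four n, minCrit_le_four n⟩,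
    fun _ hn => ⟨two_le_minCrit hn, two_le_minCrit hn⟩⟩

end Pool.Agent.Results.MP_06184b_an.BoundedExponent
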